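import Pool.Agent.H44.IC.Main

/-!
# MP_ecd49d_al, Q1: the finite groups with property (IC)

A finite group `G` has property (IC) (every irreducible complex character is an integral
combination of the trivial character and of characters induced from linear characters of cyclic
subgroups) if and only if, for every prime `p` and every Sylow `p`-subgroup `P` of `G`,
either `P` is cyclic, or

* every `x ≠ 1` in `G` of order prime to `p` has a centralizer with cyclic Sylow `p`-subgroups, and
* either `p = 2` and `|P : P'| = 4` (that is, `P` is dihedral, semidihedral, generalized quaternion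
  or of order four), or `P` has exponent dividing `p`, every `u ∈ P` is conjugate in `G` to all its
  powers `u ^ j` with `j` prime to `p`, and any two nontrivial elements of `P` whose centralizers
  in `G` have order divisible by `p ^ 3` are conjugate in `G`.
-/

noncomputable section
universe u
namespace Pool.Agent.Results.MP_ecd49d_al.CyclicInduction

/-- The character of `G` induced by the linear character `l` of the subgroup `C`:
`g ↦ (1 / |C|) ∑ l (x⁻¹ g x)`, the sum being over the `x ∈ G` with `x⁻¹ g x ∈ C`. -/
def inducedChar {G : Type*} [Group G] [Fintype G] (C : Subgroup G) (l : C →* ℂˣ) (g : G) : ℂ :=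
  open Classical in
  (Nat.card C : ℂ)⁻¹ * ∑ x : G, if h : x⁻¹ * g * x ∈ C then ((l ⟨x⁻¹ * g * x, h⟩ : ℂˣ) : ℂ) else 0

/-- `χ` is the character of an irreducible finite-dimensional complex representation of `G`. -/
def IsIrreducibleChar (G : Type u) [Group G] (χ : G → ℂ) : Prop :=
  ∃ (V : Type u) (_ : AddCommGroup V) (_ : Module ℂ V) (_ : FiniteDimensional ℂ V)
    (ρ : Representation ℂ G V), ρ.IsIrreducible ∧ ρ.character = χ

/-- Property (IC): every irreducible character lies in the additive group generated by the
trivial character and the characters induced from linear characters of cyclic subgroups. -/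
def HasIC (G : Type u) [Group G] [Fintype G] : Prop :=
  ∀ χ : G → ℂ, IsIrreducibleChar G χ → χ ∈ AddSubgroup.closure
    ({1} ∪ {f : G → ℂ | ∃ (C : Subgroup G) (_ : IsCyclic C) (l : C →* ℂˣ), f = inducedChar C l})

theorem result (G : Type u) [Group G] [Fintype G] :
    HasIC G ↔ ∀ (p : ℕ) [Fact p.Prime] (P : Sylow p G), IsCyclic P ∨
      ((∀ x : G, x ≠ 1 → ¬ p ∣ orderOf x →
          ∀ Q : Sylow p (Subgroup.centralizer ({x} : Set G)), IsCyclic Q) ∧
        ((p = 2 ∧ (commutator P).index = 4) ∨
          ((∀ u ∈ P, u ^ p = 1) ∧
            (∀ u ∈ P, ∀ j : ℕ, j.Coprime p → IsConj u (u ^ j)) ∧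
            (∀ u ∈ P, ∀ v ∈ P, u ≠ 1 → v ≠ 1 →
              p ^ 3 ∣ Nat.card (Subgroup.centralizer ({u} : Set G)) →
              p ^ 3 ∣ Nat.card (Subgroup.centralizer ({v} : Set G)) → IsConj u v)))) :=
  Pool.Agent.H44.IC.ic_iff G

end Pool.Agent.Results.MP_ecd49d_al.CyclicInduction
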